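import Pool.Agent.Helper16.MD.Stmts

/-!
Moebius disjointness of generalized Morse systems: the case of a discrete spectrum.
-/

open Finset Filter Topology

namespace Pool.Agent.Helper16.MD

open Pool.Agent.Helper51.Mo (PM pw len Lev Orth len_pos len_add two_pow_le_len pw_add pw_pm
  pw_per per_mul sum_split)

/-- the exceptional integers in an interval -/
theorem dsc_count (u v M a N : ℕ) (E : Finset ℕ) (hu : 0 < u) (hv : 0 < v)
    (hE : E ⊆ range v) (hN : N + a < u * v * M) :
    (((Icc 1 N).filter fun n => ((n + a) / u) % v ∈ E).card : ℝ) ≤ M * (u * E.card) := by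
  classical
  have h1 : ((Icc 1 N).filter fun n => ((n + a) / u) % v ∈ E).card ≤
      ((range (u * v * M)).filter fun y => (y / u) % v ∈ E).card := by
    apply card_le_card_of_injOn (fun n => n + a)
    · intro n hn
      simp only [coe_filter, mem_Icc, Set.mem_setOf_eq] at hn
      simp only [coe_filter, mem_range, Set.mem_setOf_eq]
      exact ⟨by omega, hn.2⟩
    · intro x _ y _ h
      simpa using h
  have h2 : (((range (u * v * M)).filter fun y => (y / u) % v ∈ E).card : ℝ) =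
      ∑ y ∈ range (u * v * M), if (y / u) % v ∈ E then (1 : ℝ) else 0 := by
    rw [← sum_filter]; simp
  have h3 : ∀ m < u * v, ∀ f : ℕ, ((u * v * f + m) / u) % v = m / u := by
    intro m hm f
    have e1 : (u * v * f + m) / u = v * f + m / u := by
      rw [mul_assoc, Nat.mul_add_div hu]
    rw [e1, Nat.mul_add_mod, Nat.mod_eq_of_lt]
    exact Nat.div_lt_of_lt_mul hm
  have h4 : ∑ y ∈ range (u * v * M), (if (y / u) % v ∈ E then (1 : ℝ) else 0) =
      M * ∑ m ∈ range (u * v), if m / u ∈ E then (1 : ℝ) else 0 := by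
    rw [sum_split, mul_sum]
    refine sum_congr rfl fun m hm => ?_
    rw [mem_range] at hm
    have : ∀ f ∈ range M, (if ((u * v * f + m) / u) % v ∈ E then (1 : ℝ) else 0) =
        if m / u ∈ E then (1 : ℝ) else 0 := by
      intro f _
      rw [h3 m hm f]
    rw [sum_congr rfl this]
    simp
  have h5 : ∑ m ∈ range (u * v), (if m / u ∈ E then (1 : ℝ) else 0) = u * E.card := by
    rw [sum_split]
    have : ∀ m ∈ range u, ∑ f ∈ range v, (if (u * f + m) / u ∈ E then (1 : ℝ) else 0) =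
        E.card := by
      intro m hm
      rw [mem_range] at hm
      have : ∀ f ∈ range v, (if (u * f + m) / u ∈ E then (1 : ℝ) else 0) =
          if f ∈ E then (1 : ℝ) else 0 := by
        intro f _
        rw [Nat.mul_add_div hu, Nat.div_eq_of_lt hm, add_zero]
      rw [sum_congr rfl this, ← sum_filter]
      have e : (range v).filter (fun f => f ∈ E) = E := by
        ext x
        simp only [mem_filter, mem_range]
        exact ⟨fun h => h.2, fun h => ⟨mem_range.1 (hE h), h⟩⟩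
      rw [e]; simp
    rw [sum_congr rfl this]
    simp
  calc _ ≤ (((range (u * v * M)).filter fun y => (y / u) % v ∈ E).card : ℝ) := by
        exact_mod_cast h1
    _ = M * (u * E.card) := by rw [h2, h4, h5]

theorem dsc_odd (ℓ : ℕ → ℕ) (j k : ℕ) (h : ∀ i, j ≤ i → Odd (ℓ i)) : Odd (len ℓ j k) := by
  induction k generalizing j with
  | zero => simp [len]
  | succ k ih =>
    rw [len]
    exact (h j le_rfl).mul (ih (j + 1) fun i hi => h i (by omega))

theorem dsc_eps {ε : ℝ} (hε : PM ε) (m : ℕ) : ε ^ m * ε ^ m = 1 := (hε.pow m).sq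

/-- the formula for a nonexceptional argument -/
theorem dsc_form (β : ℕ → ℕ → ℝ) (ℓ : ℕ → ℕ) (hℓ : ∀ i, 2 ≤ ℓ i)
    (hper : ∀ i n, β i (n + ℓ i) = β i n) (j k : ℕ) (ε σ : ℝ)
    (hε : ε = 1 ∨ (ε = -1 ∧ ∀ i, j ≤ i → Odd (ℓ i))) (t : ℕ)
    (ht : pw β ℓ j k (t % len ℓ j k) = σ * ε ^ (t % len ℓ j k)) :
    pw β ℓ j k t = σ * ε ^ t * ε ^ (t / len ℓ j k) := by
  set Λ := len ℓ j k with hΛ
  have h1 : ∀ i, 1 ≤ ℓ i := fun i => (by norm_num : 1 ≤ 2).trans (hℓ i)
  have hP : PM ε := by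
    rcases hε with h | h
    · exact Or.inl h
    · exact Or.inr h.1
  have e1 : pw β ℓ j k t = pw β ℓ j k (t % Λ) := by
    conv_lhs => rw [← Nat.mod_add_div t Λ]
    exact per_mul (pw β ℓ j k) Λ (pw_per β ℓ h1 hper j k) (t / Λ) (t % Λ)
  have e2 : ε ^ t = ε ^ (t % Λ) * ε ^ (t / Λ) := by
    conv_lhs => rw [← Nat.mod_add_div t Λ, pow_add, pow_mul]
    congr 1
    congr 1
    rcases hε with h | ⟨h, ho⟩
    · rw [h]; simp
    · rw [h]; exact (dsc_odd ℓ j k ho).neg_one_pow
  rw [e1, ht, e2]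
  have := dsc_eps hP (t / Λ)
  linear_combination (-σ * ε ^ (t % Λ)) * this

theorem st_DSC (hA : ST_APX) (hW : ST_WMR) (hB : ST_BLK) : ST_DSC := by
  classical
  intro β ℓ η hℓ hβ hper hDT hLev i g hg hg1
  have h1ℓ : ∀ i, 1 ≤ ℓ i := fun i => (by norm_num : 1 ≤ 2).trans (hℓ i)
  rw [Metric.tendsto_atTop]
  intro e he
  set δ : ℝ := e / 10 with hδ
  have hδ0 : 0 < δ := by positivity
  obtain ⟨j₀, hj₀⟩ := hA β ℓ hℓ hβ hper hDT δ hδ0
  set j := max i j₀ with hj
  obtain ⟨ε, hε, hk⟩ := hj₀ j (le_max_right _ _)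
  have hPε : PM ε := by
    rcases hε with h | h
    · exact Or.inl h
    · exact Or.inr h.1
  set u := len ℓ 0 j with hu
  have hu0 : 0 < u := len_pos ℓ h1ℓ 0 j
  obtain ⟨L, N₀, hL, hWM⟩ := hW (2 * u) δ (by omega) hδ0
  obtain ⟨k, hkL⟩ := pow_unbounded_of_one_lt ((L : ℝ) / δ) (by norm_num : (1 : ℝ) < 2)
  obtain ⟨σ, hσ, hcard⟩ := hk k
  set v := len ℓ j k with hv
  have hv0 : 0 < v := len_pos ℓ h1ℓ j k
  have hJ : len ℓ 0 (j + k) = u * v := by rw [len_add, zero_add]
  have hJ0 : 0 < u * v := Nat.mul_pos hu0 hv0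
  have hbig : (L : ℝ) ≤ δ * ((u * v : ℕ) : ℝ) := by
    have h2 : (2 : ℝ) ^ k ≤ ((u * v : ℕ) : ℝ) := by
      have h3 : 2 ^ (j + k) ≤ len ℓ 0 (j + k) := two_pow_le_len ℓ hℓ 0 (j + k)
      rw [hJ] at h3
      have h4 : 2 ^ k ≤ 2 ^ (j + k) := Nat.pow_le_pow_right (by norm_num) (by omega)
      exact_mod_cast h4.trans h3
    have h3 := hkL.le.trans h2
    rw [div_le_iff₀ hδ0] at h3
    linarith
  obtain ⟨a, ha, ω, hω, hη⟩ := hLev (j + k)
  rw [hJ] at ha
  set E : Finset ℕ := (range v).filter fun x => pw β ℓ j k x ≠ σ * ε ^ x with hE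
  have hEc : (E.card : ℝ) ≤ δ * v := by
    have : Nat.card {x : ℕ // x < v ∧ pw β ℓ j k x ≠ σ * ε ^ x} = E.card := by
      rw [Nat.subtype_card E]
      intro x
      simp only [hE, mem_filter, mem_range]
    rw [this] at hcard
    exact hcard
  have hEs : E ⊆ range v := filter_subset _ _
  -- the comparison functions
  set c' : ℕ → ℝ := fun x => pw β ℓ 0 j (x + a) * ε ^ ((x + a) / u) with hc'
  set ω' : ℕ → ℝ := fun m => σ * ε ^ m * ω m with hω'
  have hform : ∀ x, ((x + a) / u) % v ∉ E → η x = c' x * ω' ((x + a) / (u * v)) := by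
    intro x hx
    have hlt : ((x + a) / u) % v < v := Nat.mod_lt _ hv0
    have hx' : pw β ℓ j k (((x + a) / u) % v) = σ * ε ^ (((x + a) / u) % v) := by
      by_contra hne
      exact hx (mem_filter.2 ⟨mem_range.2 hlt, hne⟩)
    have h2 := dsc_form β ℓ hℓ hper j k ε σ hε ((x + a) / u) hx'
    rw [hη, pw_add, zero_add, hJ, ← hu, h2, ← hv, Nat.div_div_eq_div_mul]
    simp only [hc', hω']
    ring
  have hPc : ∀ x, PM (c' x) := fun x => (pw_pm β ℓ hβ _ _ _).mul (hPε.pow _)
  have hPω : ∀ m, PM (ω' m) := fun m => (hσ.mul (hPε.pow _)).mul (hω m)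
  have hPη : ∀ x, PM (η x) := fun x => hLev.pm hβ x
  have hcper : ∀ x, c' (x + 2 * u) = c' x := by
    intro x
    simp only [hc']
    have e1 : x + 2 * u + a = x + a + u * 2 := by ring
    rw [e1, per_mul (pw β ℓ 0 j) u (pw_per β ℓ h1ℓ hper 0 j), Nat.add_mul_div_left _ _ hu0,
      pow_add]
    have := hPε.sq
    rw [pow_two, this, mul_one]
  have hgper : ∀ x, g (x + 2 * u) = g x := by
    intro x
    have e1 : u = len ℓ 0 i * len ℓ i (j - i) := by
      have : j = i + (j - i) := by omega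
      rw [hu]
      conv_lhs => rw [this]
      rw [len_add, zero_add]
    have e2 : x + 2 * u = x + len ℓ 0 i * (2 * len ℓ i (j - i)) := by
      rw [e1]; ring
    rw [e2, per_mul g _ hg]
  set C : ℕ → ℂ := fun x => ((g x * c' x : ℝ) : ℂ) with hC
  have hCn : ∀ x, ‖C x‖ ≤ 1 := by
    intro x
    simp only [hC]
    rw [Complex.norm_real, Real.norm_eq_abs, abs_mul, (hPc x).abs, mul_one]
    exact hg1 x
  have hCper : ∀ x, C (x + 2 * u) = C x := by
    intro x
    simp only [hC]
    rw [hgper, hcper]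
  -- the bound
  set D : ℝ := 4 * L + 4 * δ * ((u * v : ℕ) : ℝ) with hD
  obtain ⟨N₁, hN₁⟩ := exists_nat_gt (D / δ)
  refine ⟨max (max N₀ N₁) 1, fun N hN => ?_⟩
  have hNN₀ : N₀ ≤ N := ((le_max_left _ _).trans (le_max_left _ _)).trans hN
  have hNN₁ : N₁ ≤ N := ((le_max_right _ _).trans (le_max_left _ _)).trans hN
  have hN1 : 1 ≤ N := (le_max_right _ _).trans hN
  have hNpos : (0 : ℝ) < N := by exact_mod_cast hN1
  have hDN : D ≤ δ * N := by
    have : D / δ ≤ N := hN₁.le.trans (by exact_mod_cast hNN₁)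
    rw [div_le_iff₀ hδ0] at this
    linarith
  have hblk := hB C (fun m => ((ω' m : ℝ) : ℂ)) a (u * v) L N hJ0 hL hCn (by
    intro m
    rw [Complex.norm_real, Real.norm_eq_abs, (hPω m).abs])
  have hwm := hWM N C hNN₀ hCn hCper
  have hL0 : (0 : ℝ) < L := by exact_mod_cast hL
  have huvpos : (0 : ℝ) < ((u * v : ℕ) : ℝ) := by exact_mod_cast hJ0
  have hb2 : ‖MS (fun x => C x * ((ω' ((x + a) / (u * v)) : ℝ) : ℂ)) N‖ ≤
      2 * δ * N + 4 * L := by
    refine hblk.trans ?_
    have e1 : (∑ m ∈ range N, ‖∑ j ∈ range L,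
        ((ArithmeticFunction.moebius (m + j) : ℤ) : ℂ) * C (m + j)‖) / L ≤ δ * N := by
      rw [div_le_iff₀ hL0]
      linarith
    have e2 : (N : ℝ) / ((u * v : ℕ) : ℝ) * L ≤ δ * N := by
      rw [div_mul_eq_mul_div, div_le_iff₀ huvpos]
      nlinarith
    linarith
  -- the exceptional integers
  set X := (Icc 1 N).filter fun n => ((n + a) / u) % v ∈ E with hX
  have hXc : (X.card : ℝ) ≤ δ * N + 2 * δ * ((u * v : ℕ) : ℝ) := by
    set M := (N + a) / (u * v) + 1 with hM
    have hlt : N + a < u * v * M := by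
      rw [hM, Nat.mul_add, mul_one]
      have := Nat.div_add_mod (N + a) (u * v)
      have := Nat.mod_lt (N + a) hJ0
      omega
    have h2 := dsc_count u v M a N E hu0 hv0 hEs hlt
    have hMle : (M : ℝ) * ((u * v : ℕ) : ℝ) ≤ N + 2 * ((u * v : ℕ) : ℝ) := by
      have h3 : u * v * ((N + a) / (u * v)) ≤ N + a := Nat.mul_div_le _ _
      have h4 : M * (u * v) ≤ N + 2 * (u * v) := by
        rw [hM]
        nlinarith
      exact_mod_cast h4
    calc (X.card : ℝ) ≤ M * (u * E.card) := h2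
      _ ≤ M * (u * (δ * v)) := by gcongr
      _ = δ * (M * ((u * v : ℕ) : ℝ)) := by push_cast; ring
      _ ≤ δ * (N + 2 * ((u * v : ℕ) : ℝ)) := by gcongr
      _ = _ := by ring
  -- comparison of the sums
  have hcmp : |∑ n ∈ Icc 1 N, (ArithmeticFunction.moebius n : ℝ) * (g n * η n)| ≤
      ‖MS (fun x => C x * ((ω' ((x + a) / (u * v)) : ℝ) : ℂ)) N‖ + 2 * X.card := by
    have e1 : MS (fun x => C x * ((ω' ((x + a) / (u * v)) : ℝ) : ℂ)) N =
        ((∑ n ∈ Icc 1 N, (ArithmeticFunction.moebius n : ℝ) *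
          (g n * c' n * ω' ((n + a) / (u * v))) : ℝ) : ℂ) := by
      unfold MS
      push_cast
      refine sum_congr rfl fun n _ => ?_
      simp only [hC]
      push_cast
      ring
    rw [e1, Complex.norm_real, Real.norm_eq_abs]
    have e2 : ∑ n ∈ Icc 1 N, (ArithmeticFunction.moebius n : ℝ) * (g n * η n) =
        ∑ n ∈ Icc 1 N, (ArithmeticFunction.moebius n : ℝ) *
          (g n * c' n * ω' ((n + a) / (u * v))) +
        ∑ n ∈ Icc 1 N, (ArithmeticFunction.moebius n : ℝ) *
          (g n * (η n - c' n * ω' ((n + a) / (u * v)))) := by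
      rw [← sum_add_distrib]
      refine sum_congr rfl fun n _ => ?_
      ring
    rw [e2]
    refine (abs_add_le _ _).trans (add_le_add le_rfl ?_)
    refine (abs_sum_le_sum_abs _ _).trans ?_
    have e3 : ∀ n ∈ Icc 1 N, |(ArithmeticFunction.moebius n : ℝ) *
        (g n * (η n - c' n * ω' ((n + a) / (u * v))))| ≤
        if ((n + a) / u) % v ∈ E then (2 : ℝ) else 0 := by
      intro n _
      split_ifs with h
      · have hmu : |(ArithmeticFunction.moebius n : ℝ)| ≤ 1 := by
          have := ArithmeticFunction.abs_moebius_le_one (n := n)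
          exact_mod_cast this
        have hd : |η n - c' n * ω' ((n + a) / (u * v))| ≤ 2 := by
          refine (abs_sub _ _).trans ?_
          rw [(hPη n).abs, ((hPc n).mul (hPω _)).abs]
          norm_num
        rw [abs_mul, abs_mul]
        calc _ ≤ (1 : ℝ) * (1 * 2) := by
              gcongr
              exact hg1 n
          _ = 2 := by norm_num
      · rw [hform n h]
        simp
    refine (sum_le_sum e3).trans ?_
    rw [← sum_filter, sum_const, nsmul_eq_mul, mul_comm]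
  rw [Real.dist_eq, sub_zero, abs_div, Nat.abs_cast, div_lt_iff₀ hNpos]
  have hδe : e = 10 * δ := by rw [hδ]; ring
  rw [hδe]
  nlinarith
end Pool.Agent.Helper16.MD
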